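import Mathlib
import Pool.Agent.X207.KV4

/-!
An honest, not genuinely honest Kato-Voigt semigroup with a nonnegative null vector `v` outside
`D(M₁)` such that `1` is not an eigenvalue of `P (0 - M₁)⁻¹`.
-/

namespace Pool.Agent.Results.MP_e4fc02_an.HonestNoEigenvector
open MeasureTheory Filter Topology

/-- the real Banach space `L¹(ν)` -/
abbrev V (ν : Measure ℝ) : Type := Lp ℝ 1 ν
/-- bounded linear operators on `L¹(ν)` -/
abbrev Op (ν : Measure ℝ) : Type := V ν →L[ℝ] V ν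
/-- linear operators with a domain in `L¹(ν)` -/
abbrev POp (ν : Measure ℝ) : Type := V ν →ₗ.[ℝ] V ν

variable {ν : Measure ℝ}

/-- application of an operator -/
noncomputable def ap (T : Op ν) (f : V ν) : V ν := T f
/-- `f ≥ 0` almost everywhere -/
def Nonneg (f : V ν) : Prop := 0 ≤ f
/-- `f ≤ g` almost everywhere -/
def Le (f g : V ν) : Prop := f ≤ g
/-- the zero vector -/
noncomputable def o : V ν := 0
/-- the sum `f + g` -/
noncomputable def plus (f g : V ν) : V ν := f + g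
/-- `l f - g` -/
noncomputable def comb (l : ℝ) (f g : V ν) : V ν := l • f - g
/-- `F(t) → g` in norm as `t → 0+` -/
def Lim (F : ℝ → V ν) (g : V ν) : Prop := Tendsto F (𝓝[>] 0) (𝓝 g)
/-- `f ∈ D(P)` and `P f = g` -/
def Gr (P : POp ν) (f g : V ν) : Prop := (f, g) ∈ P.graph
/-- the integral of `f` -/
noncomputable def total (f : V ν) : ℝ := ∫ x, f x ∂ν
/-- the difference quotient `(J(t) f - f) / t` -/
noncomputable def quot (J : ℝ → Op ν) (f : V ν) (t : ℝ) : V ν := t⁻¹ • (J t f - f)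

/-- `J` is a substochastic (positive and contractive) `C₀`-semigroup on `L¹(ν)`
(only the values at `t ≥ 0` matter) -/
structure IsSubstochastic (J : ℝ → Op ν) : Prop where
  zero : ∀ f, ap (J 0) f = f
  add : ∀ s t, 0 ≤ s → 0 ≤ t → ∀ f, ap (J (s + t)) f = ap (J s) (ap (J t) f)
  cont : ∀ f, Lim (fun t => ap (J t) f) f
  pos : ∀ t, 0 ≤ t → ∀ f, Nonneg f → Nonneg (ap (J t) f)
  contr : ∀ t, 0 ≤ t → ∀ f, ‖ap (J t) f‖ ≤ ‖f‖

/-- `f` is in the domain of the generator of `J`, whose value at `f` is `g` -/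
def Gen (J : ℝ → Op ν) (f g : V ν) : Prop := Lim (quot J f) g

/-- `f ∈ D(M₁)` and `M₁ f + P f = k`, where `M₁` is the generator of `M` -/
def Sum (M : ℝ → Op ν) (P : POp ν) (f k : V ν) : Prop :=
  ∃ g h, Gen M f g ∧ Gr P f h ∧ k = plus g h

/-- `(f, k)` is in the closure of the graph of `M₁ + P` -/
def ClSum (M : ℝ → Op ν) (P : POp ν) (f k : V ν) : Prop :=
  (f, k) ∈ closure {p : V ν × V ν | Sum M P p.1 p.2}

/-- `M` is a substochastic `C₀`-semigroup with generator `M₁`, and `P` is a positive operator with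
`D(M₁) ⊆ D(P)` and `∫ (M₁ φ + P φ) dν ≤ 0` for `0 ≤ φ ∈ D(M₁)` -/
structure Data (M : ℝ → Op ν) (P : POp ν) : Prop where
  sub : IsSubstochastic M
  dom : ∀ f g, Gen M f g → ∃ h, Gr P f h
  pos : ∀ f h, Gr P f h → Nonneg f → Nonneg h
  diss : ∀ f k, Sum M P f k → Nonneg f → total k ≤ 0

/-- `J` is the Kato-Voigt semigroup: the minimal substochastic `C₀`-semigroup whose generator
extends `M₁ + P` -/
structure IsKatoVoigt (M : ℝ → Op ν) (P : POp ν) (J : ℝ → Op ν) : Prop where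
  sub : IsSubstochastic J
  ext : ∀ f k, Sum M P f k → Gen J f k
  minimal : ∀ J' : ℝ → Op ν, IsSubstochastic J' → (∀ f k, Sum M P f k → Gen J' f k) →
    ∀ t, 0 ≤ t → ∀ f, Nonneg f → Le (ap (J t) f) (ap (J' t) f)

/-- honest: the generator of `J` is the closure of `M₁ + P` -/
def Honest (M : ℝ → Op ν) (P : POp ν) (J : ℝ → Op ν) : Prop := ∀ f k, Gen J f k ↔ ClSum M P f k

/-- genuinely honest: the generator of `J` is `M₁ + P` -/
def GenuinelyHonest (M : ℝ → Op ν) (P : POp ν) (J : ℝ → Op ν) : Prop :=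
  ∀ f k, Gen J f k ↔ Sum M P f k

/-- `R = (l - M₁)⁻¹` -/
def IsResolvent (M : ℝ → Op ν) (l : ℝ) (R : V ν → V ν) : Prop :=
  (∀ f, Gen M (R f) (comb l (R f) f)) ∧ ∀ f g, Gen M f g → R (comb l f g) = f

/-- `K = P (0 - M₁)⁻¹`: the strong limit of `P (l - M₁)⁻¹` as `l → 0+` -/
def IsLimitOp (M : ℝ → Op ν) (P : POp ν) (K : Op ν) : Prop :=
  ∃ R S : ℝ → V ν → V ν, (∀ l, 0 < l → IsResolvent M l (R l)) ∧
    (∀ l, 0 < l → ∀ f, Gr P (R l f) (S l f)) ∧ ∀ f, Lim (fun l => S l f) (ap K f)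

lemma not_int : ¬ Integrable (fun x : ℝ => max 1 x⁻¹) (volume.restrict (Set.Ioc (0 : ℝ) 1)) := by
  intro h
  have h1 : Integrable (fun x : ℝ => x⁻¹) (volume.restrict (Set.Ioc (0 : ℝ) 1)) := by
    refine h.mono (by fun_prop) ?_
    filter_upwards [ae_restrict_mem measurableSet_Ioc] with x hx
    have h2 : 0 < x⁻¹ := inv_pos.mpr hx.1
    rw [Real.norm_of_nonneg h2.le, Real.norm_of_nonneg (le_max_of_le_left zero_le_one)]
    exact le_max_right _ _
  have h2 : IntervalIntegrable (fun x : ℝ => x⁻¹) volume 0 1 :=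
    (intervalIntegrable_iff_integrableOn_Ioc_of_le zero_le_one).mpr h1
  rw [intervalIntegrable_inv_iff] at h2
  rcases h2 with h3 | h3
  · norm_num at h3
  · exact h3 Set.left_mem_uIcc

lemma sub_iff (J : ℝ → Op ν) : IsSubstochastic J ↔ Pool.Agent.X207.KV.IsSubstochastic ν J := by
  constructor
  · intro h
    exact ⟨ContinuousLinearMap.ext h.zero, fun s t hs ht => ContinuousLinearMap.ext (h.add s t hs ht),
      h.cont, h.pos, h.contr⟩
  · intro h
    refine ⟨fun f => ?_, fun s t hs ht f => ?_, h.cont, h.pos, h.contr⟩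
    · show J 0 f = f
      rw [h.zero]; rfl
    · show J (s + t) f = J s (J t f)
      rw [h.add s t hs ht]; rfl

lemma sum_iff' (M : ℝ → Op ν) (P : POp ν) (f k : V ν) :
    Sum M P f k ↔ (f, k) ∈ Pool.Agent.X207.KV.sumGraph ν M P := Iff.rfl

lemma gen_iff' (J : ℝ → Op ν) (f k : V ν) :
    Gen J f k ↔ (f, k) ∈ Pool.Agent.X207.KV.gen ν J := Iff.rfl

lemma honest_iff (M : ℝ → Op ν) (P : POp ν) (J : ℝ → Op ν)
    (h : Pool.Agent.X207.KV.Honest ν M P J) : Honest M P J := by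
  intro f k
  have h1 : Pool.Agent.X207.KV.gen ν J = closure (Pool.Agent.X207.KV.sumGraph ν M P) := h
  rw [gen_iff', h1]
  have h2 : {p : V ν × V ν | Sum M P p.1 p.2} = Pool.Agent.X207.KV.sumGraph ν M P := by
    ext ⟨a, b⟩
    exact sum_iff' M P a b
  unfold ClSum
  rw [h2]

lemma gh_iff (M : ℝ → Op ν) (P : POp ν) (J : ℝ → Op ν)
    (h : GenuinelyHonest M P J) : Pool.Agent.X207.KV.GenuinelyHonest ν M P J := by
  unfold Pool.Agent.X207.KV.GenuinelyHonest
  ext ⟨f, k⟩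
  exact (gen_iff' J f k).symm.trans ((h f k).trans (sum_iff' M P f k))

lemma kv_iff (M : ℝ → Op ν) (P : POp ν) (J : ℝ → Op ν)
    (hkv : Pool.Agent.X207.KV.IsKatoVoigt ν M P J) : Data M P ∧ IsKatoVoigt M P J := by
  constructor
  · refine ⟨(sub_iff M).mpr hkv.subM, ?_, ?_, ?_⟩
    · intro f g hfg
      have h1 : f ∈ P.domain := hkv.dom (f, g) ((gen_iff' M f g).mp hfg)
      exact ⟨P ⟨f, h1⟩, LinearPMap.mem_graph P ⟨f, h1⟩⟩
    · intro f h hfh hf
      exact hkv.posP (f, h) hfh hf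
    · intro f k hfk hf
      exact hkv.diss (f, k) ((sum_iff' M P f k).mp hfk) hf
  · refine ⟨(sub_iff J).mpr hkv.subJ,
      fun f k hfk => (gen_iff' J f k).mpr (hkv.ext ((sum_iff' M P f k).mp hfk)), ?_⟩
    intro J' hJ' hext
    have hext' : Pool.Agent.X207.KV.sumGraph ν M P ⊆ Pool.Agent.X207.KV.gen ν J' := by
      rintro ⟨f, k⟩ hp
      exact (gen_iff' J' f k).mp (hext f k ((sum_iff' M P f k).mpr hp))
    exact hkv.minimal J' ((sub_iff J').mp hJ') hext'

lemma limit_iff (M : ℝ → Op ν) (P : POp ν) (K : Op ν)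
    (hl : Pool.Agent.X207.KV.IsLimitOp ν M P K) : IsLimitOp M P K := by
  obtain ⟨R, S, hR, hS, hT⟩ := hl
  refine ⟨R, S, fun l hl => ⟨fun f => (gen_iff' M _ _).mpr ((hR l hl).1 f), fun f g hfg => ?_⟩, hS, hT⟩
  exact (hR l hl).2 (f, g) ((gen_iff' M f g).mp hfg)

theorem result :
    ∃ (ν : Measure ℝ) (M J : ℝ → Op ν) (P : POp ν) (K : Op ν) (v : V ν),
      Data M P ∧ IsKatoVoigt M P J ∧ Honest M P J ∧ ¬ GenuinelyHonest M P J ∧ IsLimitOp M P K ∧
      Nonneg v ∧ v ≠ o ∧ Gen J v o ∧ (∀ g, ¬ Gen M v g) ∧ ∀ u, ap K u = u → u = o := by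
  have : IsProbabilityMeasure (volume.restrict (Set.Ioc (0 : ℝ) 1)) :=
    ⟨by simp⟩
  obtain ⟨M, J, P, K, v, hkv, hh, hg, hl, hv0, hv1, hv2, hv3, hu⟩ :=
    Pool.Agent.X207.KV.main (μ := volume.restrict (Set.Ioc (0 : ℝ) 1)) (fun x : ℝ => max 1 x⁻¹)
      (by fun_prop) (fun x => le_max_left _ _) not_int
  have hd := kv_iff M P J hkv
  exact ⟨volume.restrict (Set.Ioc (0 : ℝ) 1), M, J, P, K, v, hd.1, hd.2, honest_iff M P J hh,
    fun h => hg (gh_iff M P J h), limit_iff M P K hl, hv0, hv1, (gen_iff' J v o).mpr hv2,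
    fun g hg => hv3 g ((gen_iff' M v g).mp hg), hu⟩

end Pool.Agent.Results.MP_e4fc02_an.HonestNoEigenvector
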